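import Pool.Agent.N922.PQ.Stm
import Pool.Agent.N55.PM.SigLie

/-!
# Automorphisms permute the primes; every prime lies over a prime (over `ℤ`)

Project PQ of helper922, parts PQ/SIG and PQ/LIE (helper415), adapted from helper55's
`N55/PM/SigLie.lean`.
-/

set_option autoImplicit false
set_option linter.all false

open Polynomial IsDedekindDomain WithZero
open Pool.Agent.N922.PQ
open Pool.Agent.N55.PM (cmp mem_pow int_eq)
open scoped Classical

namespace Pool.Agent.N415.PQ

theorem sig : Pool.Agent.N922.PQ.S_SIG := by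
  intro F' O' _ _ _ _ _ _ _ σ 𝔓
  have hi : ∀ (τ : F' ≃+* F') (z : O'), IsIntegral ℤ (τ (algebraMap O' F' z)) := by
    intro τ z
    exact ((IsIntegralClosure.isIntegral ℤ F' z).algebraMap).map τ.toRingHom.toIntAlgHom
  have hinj : Function.Injective (algebraMap O' F') :=
    IsIntegralClosure.algebraMap_injective O' ℤ F'
  let f : (F' ≃+* F') → O' → O' := fun τ z => IsIntegralClosure.mk' O' _ (hi τ z)
  have hf : ∀ τ z, algebraMap O' F' (f τ z) = τ (algebraMap O' F' z) := fun τ z =>
    IsIntegralClosure.algebraMap_mk' O' _ (hi τ z)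
  let φ : O' ≃+* O' :=
    { toFun := f σ
      invFun := f σ.symm
      left_inv := fun z => hinj (by rw [hf, hf, RingEquiv.symm_apply_apply])
      right_inv := fun z => hinj (by rw [hf, hf, RingEquiv.apply_symm_apply])
      map_mul' := fun x y => hinj (by rw [map_mul, hf, hf, hf, map_mul, map_mul])
      map_add' := fun x y => hinj (by rw [map_add, hf, hf, hf, map_add, map_add]) }
  have hφ : ∀ z, algebraMap O' F' (φ z) = σ (algebraMap O' F' z) := hf σ
  refine ⟨cmp φ 𝔓, ?_, ?_⟩
  · intro x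
    obtain ⟨a, b, hb, rfl⟩ := IsFractionRing.div_surjective (A := O') x
    rw [map_div₀ σ, ← hφ, ← hφ, map_div₀, map_div₀, HeightOneSpectrum.valuation_of_algebraMap,
      HeightOneSpectrum.valuation_of_algebraMap, HeightOneSpectrum.valuation_of_algebraMap,
      HeightOneSpectrum.valuation_of_algebraMap, int_eq, int_eq]
  · intro P
    unfold Ov
    change ((P : ℤ) : O') ∈ Ideal.comap φ 𝔓.asIdeal ↔ _
    rw [Ideal.mem_comap, map_intCast]

theorem lie : Pool.Agent.N922.PQ.S_LIE := by
  intro F F' O O' _ _ _ _ _ _ _ _ _ _ _ _ _ _ _ 𝔓'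
  have hi : ∀ z : O, IsIntegral ℤ (algebraMap F F' (algebraMap O F z)) := by
    intro z
    exact ((IsIntegralClosure.isIntegral ℤ F z).algebraMap).map (algebraMap F F').toIntAlgHom
  have hinj : Function.Injective (algebraMap O' F') :=
    IsIntegralClosure.algebraMap_injective O' ℤ F'
  let f : O → O' := fun z => IsIntegralClosure.mk' O' _ (hi z)
  have hf : ∀ z, algebraMap O' F' (f z) = algebraMap F F' (algebraMap O F z) := fun z =>
    IsIntegralClosure.algebraMap_mk' O' _ (hi z)
  let φ : O →+* O' :=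
    { toFun := f
      map_one' := hinj (by rw [hf, map_one, map_one, map_one])
      map_mul' := fun x y => hinj (by rw [map_mul, hf, hf, hf, map_mul, map_mul])
      map_zero' := hinj (by rw [hf, map_zero, map_zero, map_zero])
      map_add' := fun x y => hinj (by rw [map_add, hf, hf, hf, map_add, map_add]) }
  have hφ : ∀ z, algebraMap O' F' (φ z) = algebraMap F F' (algebraMap O F z) := hf
  have hφP : ∀ P : ℤ, φ (P : O) = (P : O') := fun P => map_intCast φ P
  -- a nonzero integer in the prime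
  have hq : ∃ q : ℤ, (q : O') ≠ 0 ∧ (q : O') ∈ 𝔓'.asIdeal := by
    obtain ⟨z, hz, hz0⟩ := Submodule.exists_mem_ne_zero_of_ne_bot 𝔓'.ne_bot
    have h1 : IsIntegral (⊥ : Subalgebra ℤ O') z :=
      (IsIntegralClosure.isIntegral ℤ F' z).tower_top
    have h2 := Ideal.comap_ne_bot_of_integral_mem (I := 𝔓'.asIdeal) hz0 hz h1
    obtain ⟨⟨a, ha⟩, ha1, ha0⟩ := Submodule.exists_mem_ne_zero_of_ne_bot h2
    obtain ⟨q, rfl⟩ := Algebra.mem_bot.1 ha
    have e : (algebraMap ℤ O') q = (q : O') := by simp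
    refine ⟨q, ?_, ?_⟩
    · intro h0
      exact ha0 (Subtype.ext (by rw [← e] at h0; exact h0))
    · rw [← e]
      exact ha1
  obtain ⟨q, hq0, hq1⟩ := hq
  have hp : (Ideal.comap φ 𝔓'.asIdeal).IsPrime := by
    haveI := 𝔓'.isPrime
    exact Ideal.comap_isPrime φ 𝔓'.asIdeal
  let 𝔓 : HeightOneSpectrum O :=
    { asIdeal := Ideal.comap φ 𝔓'.asIdeal
      isPrime := hp
      ne_bot := by
        intro h
        have h1 : (q : O) ∈ Ideal.comap φ 𝔓'.asIdeal := by
          rw [Ideal.mem_comap, hφP]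
          exact hq1
        rw [h, Ideal.mem_bot] at h1
        apply hq0
        rw [← hφP, h1, map_zero] }
  have hmem : ∀ z : O, z ∈ 𝔓.asIdeal ↔ φ z ∈ 𝔓'.asIdeal := fun z => Iff.rfl
  -- values of fractions
  have key : ∀ (x : F) (n d : O), d ∉ 𝔓.asIdeal → x * algebraMap O F d = algebraMap O F n →
      𝔓'.valuation F' (algebraMap F F' x) = 𝔓'.intValuation (φ n) := by
    intro x n d hd h
    have h1 : 𝔓'.intValuation (φ d) = 1 := by
      rw [HeightOneSpectrum.intValuation_eq_one_iff]
      exact fun h2 => hd ((hmem d).2 h2)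
    have h2 : 𝔓'.valuation F' (algebraMap F F' x) * 𝔓'.intValuation (φ d) =
        𝔓'.intValuation (φ n) := by
      have a1 : 𝔓'.valuation F' (algebraMap O' F' (φ d)) = 𝔓'.intValuation (φ d) :=
        HeightOneSpectrum.valuation_of_algebraMap _ _
      have a2 : 𝔓'.valuation F' (algebraMap O' F' (φ n)) = 𝔓'.intValuation (φ n) :=
        HeightOneSpectrum.valuation_of_algebraMap _ _
      rw [← a1, ← a2, hφ, hφ, ← map_mul, ← map_mul, h]
    rwa [h1, mul_one] at h2
  refine ⟨𝔓, ⟨?_, ?_⟩, ?_⟩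
  · intro x hx
    obtain ⟨n, d, h⟩ := 𝔓.exists_primeCompl_mul_eq_of_integer x hx
    rw [key x n d d.2 h]
    exact 𝔓'.intValuation_le_one _
  · intro x hx
    obtain ⟨n, d, h⟩ := 𝔓.exists_primeCompl_mul_eq_of_integer x hx.le
    have a1 : 𝔓.valuation F (algebraMap O F n) < 1 ↔ n ∈ 𝔓.asIdeal :=
      HeightOneSpectrum.valuation_lt_one_iff_mem (K := F) 𝔓 n
    rw [key x n d d.2 h, HeightOneSpectrum.intValuation_lt_one_iff_mem, ← hmem, ← a1, ← h, map_mul]
    refine lt_of_le_of_lt ?_ hx
    have h3 := mul_le_mul' (le_refl (𝔓.valuation F x)) (𝔓.valuation_le_one (K := F) (d : O))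
    rwa [mul_one] at h3
  · intro P
    unfold Ov
    rw [hmem, hφP]

end Pool.Agent.N415.PQ
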