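import Pool.Agent.N922.PQ.Def

/-!
# Project PQ (helper922): few bad curves, `S_BAD` from `S_BOX`, `S_BOX0`, `S_ORB` (helper415)

For `T = 2 ^ m`, the pairs `(a, b)` from tuples of type `T` are at most `K X ^ 5 / T` by
`S_ORB` and `S_BOX0`, and at most `K X ^ 5 / (T A)`, `A = 2 ^ |S| (∏ Q) ^ 2`, when `T` is small.
When `T` is not small, `T ≥ A ^ 2` for large `X`.
-/

set_option autoImplicit false
set_option linter.all false

open scoped Classical

namespace Pool.Agent.N415.PQ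

open Pool.Agent.N874.PP (Tup chA chB gq tau Two)
open Pool.Agent.N922.PQ

theorem ncard_biUnion_le {α : Type} (P : ℕ → Set α) (n : ℕ) :
    (⋃ m ∈ Finset.range n, P m).ncard ≤ ∑ m ∈ Finset.range n, (P m).ncard := by
  induction n with
  | zero => simp
  | succ n ih =>
    rw [Finset.range_add_one, Finset.set_biUnion_insert,
      Finset.sum_insert Finset.notMem_range_self]
    exact (Set.ncard_union_le _ _).trans (Nat.add_le_add_left ih _)

theorem geo_sum (n : ℕ) : ∑ m ∈ Finset.range n, (3 / 4 : ℝ) ^ m = 4 * (1 - (3 / 4) ^ n) := by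
  induction n with
  | zero => simp
  | succ n ih =>
    rw [Finset.sum_range_succ, ih, pow_succ]
    ring

theorem prod_pos_of_good (S : Finset ℤ) (s : ℤ → ℤ) (hS : GoodS S s) : 0 < ∏ Q ∈ S, Q :=
  Finset.prod_pos fun Q hQ => (hS Q hQ).1.1

theorem four_pow_le {κ X m : ℕ} {B : Tup ℤ} (hb : InBox κ X (2 ^ m) B) (hx : B.x ≠ 0) :
    4 ^ m ≤ κ * X := by
  have h1 := hb.1
  have h2 : (1 : ℤ) ≤ |B.x| := Int.one_le_abs hx
  have h3 : ((4 : ℤ)) ^ m ≤ κ * X := by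
    have h4 : (((2 ^ m : ℕ) : ℤ)) ^ 2 = 4 ^ m := by
      push_cast
      rw [← pow_mul, mul_comm, pow_mul]
      norm_num
    rw [h4] at h1
    have h5 : (0 : ℤ) ≤ 4 ^ m := by positivity
    nlinarith
  exact_mod_cast h3

theorem bad (h1 : S_BOX) (h2 : S_BOX0) (h3 : S_ORB) : S_BAD := by
  intro κ
  obtain ⟨K1, hK1⟩ := h1 (29 * κ)
  obtain ⟨K0, hK0⟩ := h2 (29 * κ)
  obtain ⟨K2, hK2⟩ := h2 κ
  refine ⟨4 * (K0 + K1), fun S s hS => ?_⟩
  have hqpos := prod_pos_of_good S s hS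
  obtain ⟨q, hq⟩ : ∃ q : ℕ, (q : ℤ) = ∏ Q ∈ S, Q :=
    ⟨(∏ Q ∈ S, Q).toNat, Int.toNat_of_nonneg hqpos.le⟩
  have hq1 : 1 ≤ q := by
    rw [← hq] at hqpos
    exact_mod_cast hqpos
  obtain ⟨A, hA⟩ : ∃ A : ℕ, A = 2 ^ S.card * q ^ 2 := ⟨_, rfl⟩
  have hA1 : 1 ≤ A := by
    rw [hA]
    exact Nat.one_le_iff_ne_zero.2 (by positivity)
  have hAZ : ((A : ℤ)) = 2 ^ S.card * (∏ Q ∈ S, Q) ^ 2 := by
    rw [hA, ← hq]
    push_cast
    ring
  refine ⟨A ^ 4 * q, fun X hX => ?_⟩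
  have hX1 : 1 ≤ X := by
    refine le_trans ?_ hX
    exact Nat.one_le_iff_ne_zero.2 (by positivity)
  let P : ℕ → Set (ℤ × ℤ) := fun m =>
    {p : ℤ × ℤ | ∃ B : Tup ℤ, Xset κ X (2 ^ m) S s B ∧ chA B = p.1 ∧ chB B = p.2}
  have hT : ∀ m : ℕ, 1 ≤ 2 ^ m := fun m => Nat.one_le_two_pow
  have hPfin : ∀ m, (P m).Finite := by
    intro m
    refine ((hK2 S s X (2 ^ m) (hT m) hX1).1.image fun B => (chA B, chB B)).subset ?_
    rintro p ⟨B, hB, ha, hb⟩
    exact ⟨B, hB, Prod.ext ha hb⟩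
  have hsub : {p : ℤ × ℤ | LBad κ X S s p.1 p.2} ⊆
      ⋃ m ∈ Finset.range (κ * X + 1), P m := by
    rintro p ⟨m, B, hB, ha, hb⟩
    rw [Set.mem_iUnion₂]
    refine ⟨m, Finset.mem_range.2 ?_, B, hB, ha, hb⟩
    have h5 := four_pow_le hB.box hB.nz
    have h6 : m < 4 ^ m := Nat.lt_pow_self (by norm_num)
    omega
  have hfin : (⋃ m ∈ Finset.range (κ * X + 1), P m).Finite :=
    Set.Finite.biUnion (Finset.finite_toSet _) fun m _ => hPfin m
  refine ⟨hfin.subset hsub, ?_⟩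
  have hle : {p : ℤ × ℤ | LBad κ X S s p.1 p.2}.ncard ≤
      ∑ m ∈ Finset.range (κ * X + 1), (P m).ncard :=
    (Set.ncard_le_ncard hsub hfin).trans (ncard_biUnion_le P (κ * X + 1))
  -- each term
  have hterm : ∀ m ∈ Finset.range (κ * X + 1),
      (A : ℝ) * ((P m).ncard : ℝ) ≤ (((K0 + K1 : ℕ) : ℝ) * (X : ℝ) ^ 5) * (3 / 4) ^ m := by
    intro m _
    have ho : (P m).ncard * 2 ^ m ≤ {B : Tup ℤ | Xset (29 * κ) X (2 ^ m) S s B}.ncard :=
      h3 κ S s X (2 ^ m) (hT m) (hK0 S s X (2 ^ m) (hT m) hX1).1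
    have hr0 : (0 : ℝ) < 2 ^ m := by positivity
    have hK0r : (0 : ℝ) ≤ (K0 : ℝ) * (X : ℝ) ^ 5 := by positivity
    have hK1r : (0 : ℝ) ≤ (K1 : ℝ) * (X : ℝ) ^ 5 := by positivity
    have hpw : (3 / 4 : ℝ) ^ m * 2 ^ m = (3 / 2) ^ m := by
      rw [← mul_pow]
      norm_num
    have h32 : (1 : ℝ) ≤ (3 / 2) ^ m := one_le_pow₀ (by norm_num)
    have hgoal : (A : ℝ) * ((P m).ncard : ℝ) * 2 ^ m ≤
        ((K0 : ℝ) * (X : ℝ) ^ 5 + (K1 : ℝ) * (X : ℝ) ^ 5) * (3 / 2) ^ m := by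
      by_cases hg : (∏ Q ∈ S, Q) * ((2 ^ m : ℕ) : ℤ) ^ 2 ≤ ((29 * κ : ℕ) : ℤ) * X
      · have hb := (hK1 S s hS X (2 ^ m) (hT m) hg).2
        rw [← hAZ] at hb
        have hb' : A * {B : Tup ℤ | Xset (29 * κ) X (2 ^ m) S s B}.ncard ≤ K1 * X ^ 5 := by
          exact_mod_cast hb
        have h5 : A * (P m).ncard * 2 ^ m ≤ K1 * X ^ 5 := by
          calc A * (P m).ncard * 2 ^ m = A * ((P m).ncard * 2 ^ m) := by ring
            _ ≤ A * {B : Tup ℤ | Xset (29 * κ) X (2 ^ m) S s B}.ncard := Nat.mul_le_mul_left _ ho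
            _ ≤ _ := hb'
        have h6 : (A : ℝ) * ((P m).ncard : ℝ) * 2 ^ m ≤ (K1 : ℝ) * (X : ℝ) ^ 5 := by
          exact_mod_cast h5
        nlinarith
      · rcases Nat.eq_zero_or_pos κ with hκ | hκ
        · have hPe : P m = ∅ := by
            rw [Set.eq_empty_iff_forall_notMem]
            rintro p ⟨B, hB, _, _⟩
            have h5 := four_pow_le hB.box hB.nz
            rw [hκ, zero_mul] at h5
            have h6 : 0 < 4 ^ m := by positivity
            omega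
          rw [hPe, Set.ncard_empty]
          simp only [Nat.cast_zero, mul_zero, zero_mul]
          positivity
        · have hb := (hK0 S s X (2 ^ m) (hT m) hX1).2
          have h5 : (P m).ncard * 2 ^ m ≤ K0 * X ^ 5 := ho.trans hb
          have h6 : ((P m).ncard : ℝ) * 2 ^ m ≤ (K0 : ℝ) * (X : ℝ) ^ 5 := by
            exact_mod_cast h5
          have h7 : 29 * κ * X < q * (2 ^ m) ^ 2 := by
            push Not at hg
            rw [← hq] at hg
            exact_mod_cast hg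
          have h8 : A ^ 4 * q < q * (2 ^ m) ^ 2 := by
            refine lt_of_le_of_lt ?_ h7
            refine hX.le.trans ?_
            nlinarith
          have h9 : A ^ 4 < (2 ^ m) ^ 2 := by
            rw [mul_comm] at h8
            exact Nat.lt_of_mul_lt_mul_left h8
          have h10 : A ^ 2 < 2 ^ m := by
            have : (A ^ 2) ^ 2 < (2 ^ m) ^ 2 := by
              rw [← pow_mul]
              exact h9
            exact lt_of_pow_lt_pow_left₀ 2 (by positivity) this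
          have h11 : (A : ℝ) ≤ (3 / 2) ^ m := by
            have h12 : (A : ℝ) ^ 2 ≤ ((3 / 2 : ℝ) ^ m) ^ 2 := by
              have h13 : (A : ℝ) ^ 2 ≤ 2 ^ m := by
                exact_mod_cast h10.le
              have h14 : (2 : ℝ) ^ m ≤ ((3 / 2 : ℝ) ^ m) ^ 2 := by
                rw [← pow_mul, mul_comm, pow_mul]
                exact pow_le_pow_left₀ (by norm_num) (by norm_num) m
              exact h13.trans h14
            exact le_of_sq_le_sq h12 (by positivity)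
          have hA0 : (0 : ℝ) ≤ A := Nat.cast_nonneg A
          calc (A : ℝ) * ((P m).ncard : ℝ) * 2 ^ m = A * (((P m).ncard : ℝ) * 2 ^ m) := by ring
            _ ≤ (3 / 2) ^ m * ((K0 : ℝ) * (X : ℝ) ^ 5) :=
                mul_le_mul h11 h6 (by positivity) (by positivity)
            _ ≤ ((K0 : ℝ) * (X : ℝ) ^ 5 + (K1 : ℝ) * (X : ℝ) ^ 5) * (3 / 2) ^ m := by
                nlinarith
    have h20 : (A : ℝ) * ((P m).ncard : ℝ) * 2 ^ m ≤
        ((((K0 + K1 : ℕ) : ℝ) * (X : ℝ) ^ 5) * (3 / 4) ^ m) * 2 ^ m := by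
      rw [mul_assoc (((K0 + K1 : ℕ) : ℝ) * (X : ℝ) ^ 5), hpw]
      refine hgoal.trans (le_of_eq ?_)
      push_cast
      ring
    exact le_of_mul_le_mul_right h20 hr0
  have hsum : (A : ℝ) * ({p : ℤ × ℤ | LBad κ X S s p.1 p.2}.ncard : ℝ) ≤
      4 * ((K0 + K1 : ℕ) : ℝ) * (X : ℝ) ^ 5 := by
    have h5 : ({p : ℤ × ℤ | LBad κ X S s p.1 p.2}.ncard : ℝ) ≤
        ∑ m ∈ Finset.range (κ * X + 1), ((P m).ncard : ℝ) := by exact_mod_cast hle
    calc (A : ℝ) * ({p : ℤ × ℤ | LBad κ X S s p.1 p.2}.ncard : ℝ) ≤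
        A * ∑ m ∈ Finset.range (κ * X + 1), ((P m).ncard : ℝ) :=
          mul_le_mul_of_nonneg_left h5 (Nat.cast_nonneg A)
      _ = ∑ m ∈ Finset.range (κ * X + 1), (A : ℝ) * ((P m).ncard : ℝ) := Finset.mul_sum _ _ _
      _ ≤ ∑ m ∈ Finset.range (κ * X + 1),
          (((K0 + K1 : ℕ) : ℝ) * (X : ℝ) ^ 5) * (3 / 4) ^ m := Finset.sum_le_sum hterm
      _ = (((K0 + K1 : ℕ) : ℝ) * (X : ℝ) ^ 5) * (4 * (1 - (3 / 4) ^ (κ * X + 1))) := by
          rw [← Finset.mul_sum, geo_sum]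
      _ ≤ (((K0 + K1 : ℕ) : ℝ) * (X : ℝ) ^ 5) * 4 := by
          refine mul_le_mul_of_nonneg_left ?_ (by positivity)
          have : (0 : ℝ) ≤ (3 / 4) ^ (κ * X + 1) := by positivity
          linarith
      _ = _ := by ring
  have hsum' : A * {p : ℤ × ℤ | LBad κ X S s p.1 p.2}.ncard ≤ 4 * (K0 + K1) * X ^ 5 := by
    exact_mod_cast hsum
  rw [← hAZ]
  exact_mod_cast hsum'

end Pool.Agent.N415.PQ
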